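import Mathlib
import Pool.Agent.W890.SF.Stm

/-!
# Uncovered edges in the non-extremal case (`S_LNK → S_NEU`)
-/

set_option autoImplicit false

namespace Pool.Agent.W398.SAM

open Finset Pool.Agent.W890.SF

theorem low {V : Type} [Fintype V] [DecidableEq V] (y : V → ℝ) (m : ℕ) (h1 : 1 ≤ m) :
    m ≤ Fintype.card V → ∃ Lw : Finset V, Lw.card = m ∧ ∃ a : ℝ, (∃ v, a = y v) ∧
      (∀ v ∈ Lw, y v ≤ a) ∧ (∀ v, v ∉ Lw → a ≤ y v) := by
  induction m, h1 using Nat.le_induction with
  | base =>
    intro h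
    have : Nonempty V := Fintype.card_pos_iff.mp (by omega)
    obtain ⟨v, hv⟩ := Finite.exists_min y
    exact ⟨{v}, by simp, y v, ⟨v, rfl⟩, by simp, fun w _ => hv w⟩
  | succ m hm ih =>
    intro h
    obtain ⟨Lw, hc, a, ⟨v, hv⟩, h2, h3⟩ := ih (by omega)
    have hne : (univ \ Lw).Nonempty := by
      rw [← Finset.card_pos, Finset.card_sdiff_of_subset (subset_univ _), Finset.card_univ]
      omega
    obtain ⟨w, hw, hw2⟩ := Finset.exists_min_image (univ \ Lw) y hne
    have hwL : w ∉ Lw := (Finset.mem_sdiff.mp hw).2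
    refine ⟨insert w Lw, ?_, y w, ⟨w, rfl⟩, ?_, ?_⟩
    · rw [Finset.card_insert_of_notMem hwL, hc]
    · intro u hu
      rcases Finset.mem_insert.mp hu with rfl | hu
      · exact le_refl _
      · exact (h2 u hu).trans (h3 w hwL)
    · intro u hu
      apply hw2
      simp only [Finset.mem_sdiff, Finset.mem_univ, true_and]
      exact fun hh => hu (Finset.mem_insert_of_mem hh)

/-- link of a vertex -/
def lk {V : Type} [Fintype V] [DecidableEq V] (k : ℕ) (H : Finset (Finset V)) (v : V) :
    Finset (Finset V) :=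
  ((univ : Finset V).powersetCard (k - 1)).filter (fun T => v ∉ T ∧ insert v T ∈ H)

theorem lk_card {V : Type} [Fintype V] [DecidableEq V] (k : ℕ) (_hk : 1 ≤ k)
    (H : Finset (Finset V)) (hH : Unif k H) (v : V) (p : Finset V → Prop) [DecidablePred p] :
    ((lk k H v).filter (fun T => p (insert v T))).card =
      (H.filter (fun e => v ∈ e ∧ p e)).card := by
  refine Finset.card_bij (fun T _ => insert v T) ?_ ?_ ?_
  · intro T hT
    simp only [lk, Finset.mem_filter] at hT ⊢
    exact ⟨hT.1.2.2, Finset.mem_insert_self _ _, hT.2⟩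
  · intro T hT T' hT' hh
    simp only [lk, Finset.mem_filter] at hT hT'
    have := congrArg (fun s => Finset.erase s v) hh
    simpa [Finset.erase_insert hT.1.2.1, Finset.erase_insert hT'.1.2.1] using this
  · intro e he
    simp only [Finset.mem_filter] at he
    refine ⟨e.erase v, ?_, Finset.insert_erase he.2.1⟩
    simp only [lk, Finset.mem_filter, Finset.mem_powersetCard, Finset.subset_univ, true_and,
      Finset.insert_erase he.2.1]
    refine ⟨⟨?_, Finset.notMem_erase _ _, he.1⟩, he.2.2⟩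
    rw [Finset.card_erase_of_mem he.2.1, hH e he.1]

theorem lk_card0 {V : Type} [Fintype V] [DecidableEq V] (k : ℕ) (hk : 1 ≤ k)
    (H : Finset (Finset V)) (hH : Unif k H) (v : V) : (lk k H v).card = dg H v := by
  have := lk_card k hk H hH v (fun _ => True)
  simpa [dg] using this

theorem dg_le {V : Type} [Fintype V] [DecidableEq V] (k : ℕ) (hk : 1 ≤ k)
    (H : Finset (Finset V)) (hH : Unif k H) (v : V) :
    (dg H v : ℝ) ≤ (Fintype.card V : ℝ) ^ (k - 1) := by
  rw [← lk_card0 k hk H hH v]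
  have h1 : (lk k H v).card ≤ (Fintype.card V) ^ (k - 1) := by
    refine (Finset.card_le_card (Finset.filter_subset _ _)).trans ?_
    rw [Finset.card_powersetCard, Finset.card_univ]
    exact Nat.choose_le_pow _ _
  exact_mod_cast h1

set_option maxHeartbeats 1000000 in
theorem neu (h : S_LNK) : S_NEU := by
  intro k hk γ hγ
  have hk0 : (0 : ℝ) < k := by
    have : 0 < k := by omega
    exact_mod_cast this
  obtain ⟨g, hg0, hg1, hg2⟩ : ∃ g : ℝ, 0 < g ∧ g ≤ γ / 4 ∧ k * g ≤ 1 / 2 := by
    refine ⟨min (γ / 4) (1 / (2 * k)), by positivity, min_le_left _ _, ?_⟩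
    have h1 : min (γ / 4) (1 / (2 * (k : ℝ))) ≤ 1 / (2 * k) := min_le_right _ _
    calc (k : ℝ) * min (γ / 4) (1 / (2 * (k : ℝ))) ≤ k * (1 / (2 * k)) :=
          mul_le_mul_of_nonneg_left h1 hk0.le
      _ = 1 / 2 := by field_simp
  obtain ⟨η, hη, hη2⟩ := h k hk g hg0
  refine ⟨η, hη, ?_⟩
  intro ε hε hε1
  obtain ⟨c1, τ1, hc1, hτ1, hτ11, n1, hn1⟩ := hη2 (ε / 2) (by positivity) (by linarith)
  obtain ⟨n2, hn2⟩ := exists_nat_ge (4 / ε)
  refine ⟨min (ε / 4 * c1 / k) g, min (ε * τ1 / 2) (ε / 4), by positivity, by positivity,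
    max n1 (n2 + 1), ?_⟩
  intro V _ _ hV H hH hdeg hext y hy hys
  by_contra hcon
  rw [not_le] at hcon
  set N : ℝ := (Fintype.card V : ℝ) with hN
  set τ : ℝ := min (ε * τ1 / 2) (ε / 4) with hτ
  set G := H.filter (fun e => ∑ v ∈ e, y v ≤ 1 - τ) with hG
  have hVn1 : n1 ≤ Fintype.card V := (le_max_left _ _).trans hV
  have hVn2 : n2 + 1 ≤ Fintype.card V := (le_max_right _ _).trans hV
  have hN1 : 1 ≤ N := by
    rw [hN]
    have : 1 ≤ Fintype.card V := by omega
    exact_mod_cast this
  have hN2 : 4 / ε ≤ N := by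
    refine hn2.trans ?_
    rw [hN]
    have : n2 ≤ Fintype.card V := by omega
    exact_mod_cast this
  have hN3 : 4 ≤ ε * N := by
    rw [div_le_iff₀ hε] at hN2
    linarith
  have hNpow : N ^ k = N * N ^ (k - 1) := by
    conv_lhs => rw [show k = (k - 1) + 1 by omega]
    rw [pow_succ]
    ring
  -- the low vertices
  set m : ℕ := ⌈ε / 4 * N⌉₊ with hm
  have hm1 : ε / 4 * N ≤ m := Nat.le_ceil _
  have hm2 : (m : ℝ) < ε / 4 * N + 1 := Nat.ceil_lt_add_one (by positivity)
  have hm3 : (m : ℝ) ≤ ε / 2 * N := by linarith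
  have hm4 : 1 ≤ m := by
    rw [Nat.one_le_ceil_iff]
    positivity
  have hm5 : m ≤ Fintype.card V := by
    have : (m : ℝ) ≤ N := by nlinarith
    rw [hN] at this
    exact_mod_cast this
  obtain ⟨Lw, hLc, a, ⟨v0, hv0⟩, hLa, hLb⟩ := low y m hm4 hm5
  have ha0 : 0 ≤ a := hv0 ▸ hy v0
  have hcomp : ((univ \ Lw).card : ℝ) = N - m := by
    rw [Finset.card_sdiff_of_subset (subset_univ _), Finset.card_univ, hLc,
      Nat.cast_sub hm5]
  have hsplit : ∑ v ∈ univ \ Lw, y v ≤ ∑ v, y v :=
    Finset.sum_le_sum_of_subset_of_nonneg (Finset.subset_univ _) (fun v _ _ => hy v)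
  have hlow : a * (N - m) ≤ ∑ v ∈ univ \ Lw, y v := by
    rw [← hcomp, mul_comm, ← nsmul_eq_mul]
    apply Finset.card_nsmul_le_sum
    intro v hv
    exact hLb v (Finset.mem_sdiff.mp hv).2
  have hka : k * a * (1 - ε / 2) ≤ 1 - ε := by
    have h1 : a * (N - m) ≤ (1 - ε) * N / k := hlow.trans (hsplit.trans hys)
    rw [le_div_iff₀ hk0] at h1
    have h2 : a * ((1 - ε / 2) * N) ≤ a * (N - m) :=
      mul_le_mul_of_nonneg_left (by linarith) ha0
    have h3 : (k * a * (1 - ε / 2)) * N ≤ (1 - ε) * N := by nlinarith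
    exact le_of_mul_le_mul_right h3 (by linarith)
  set u : ℝ := 1 - k * a with hu
  have hka0 : 0 ≤ k * a := by positivity
  have hu1 : ε / 2 ≤ u := by
    nlinarith
  have hu0 : 0 < u := by linarith
  have hu2 : u ≤ 1 := by linarith
  set y' : V → ℝ := fun v => max (y v - a) 0 / u with hy'
  have hy'0 : ∀ v, 0 ≤ y' v := fun v => div_nonneg (le_max_right _ _) hu0.le
  have hyy : ∀ v, y v ≤ a + u * y' v := by
    intro v
    have : u * y' v = max (y v - a) 0 := by
      simp only [hy']
      field_simp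
    rw [this]
    have := le_max_left (y v - a) 0
    linarith
  have hy's : ∑ v, y' v ≤ (1 - ε / 2) * N / k := by
    have h1 : ∑ v, max (y v - a) 0 = ∑ v ∈ univ \ Lw, (y v - a) := by
      rw [← Finset.sum_sdiff (Finset.subset_univ Lw)]
      rw [Finset.sum_eq_zero (s := Lw)]
      · rw [add_zero]
        apply Finset.sum_congr rfl
        intro v hv
        exact max_eq_left (by linarith [hLb v (Finset.mem_sdiff.mp hv).2])
      · intro v hv
        exact max_eq_right (by linarith [hLa v hv])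
    have h2 : ∑ v ∈ univ \ Lw, (y v - a) = ∑ v ∈ univ \ Lw, y v - a * (N - m) := by
      rw [Finset.sum_sub_distrib, Finset.sum_const, nsmul_eq_mul, hcomp]
      ring
    have h3 : ∑ v, y' v = (∑ v, max (y v - a) 0) / u := by
      rw [Finset.sum_div]
    rw [h3, div_le_iff₀ hu0, h1, h2]
    have h4 : (1 - ε) * N / k - a * (N - m) ≤ (1 - ε / 2) * N / k * u := by
      have e1 : (1 - ε / 2) * N / k * u = (1 - ε / 2) * N / k - (1 - ε / 2) * N * a := by
        rw [hu]
        field_simp
      have e2 : (1 - ε) * N / k = (1 - ε / 2) * N / k - (ε / 2) * N / k := by ring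
      rw [e1, e2]
      have e3 : 0 ≤ (ε / 2) * N / k := by positivity
      have e4 : a * m ≤ a * (ε / 2 * N) := mul_le_mul_of_nonneg_left hm3 ha0
      have e5 : a * (N - m) = a * N - a * m := by ring
      have e6 : (1 - ε / 2) * N * a = a * N - a * (ε / 2 * N) := by ring
      rw [e5, e6]
      linarith
    linarith
  have hcardle : ∀ e ∈ H, ∑ v ∈ e, a = k * a := by
    intro e he
    rw [Finset.sum_const, nsmul_eq_mul, hH e he]
  have hτ1' : τ ≤ ε * τ1 / 2 := min_le_left _ _
  have hτ2' : τ ≤ ε / 4 := min_le_right _ _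
  -- some low vertex has the second alternative
  have hex : ∃ v ∈ Lw, ∃ S : Finset V, (S.card : ℝ) ≤ (1 / (k : ℝ) + g) * N ∧
      (({w : V | w ∉ S ∧ g < y' w}.ncard : ℕ) : ℝ) ≤ g * N := by
    by_contra hno
    have hall : ∀ v ∈ Lw, c1 * N ^ (k - 1) ≤ ((G.filter (fun e => v ∈ e)).card : ℝ) := by
      intro v hv
      have hU : Unif (k - 1) (lk k H v) := by
        intro T hT
        simp only [lk, Finset.mem_filter, Finset.mem_powersetCard] at hT
        exact hT.1.2
      have hd := hdeg v
      rw [← lk_card0 k (by omega) H hH v] at hd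
      rcases hn1 V hVn1 (lk k H v) hU hd y' hy'0 hy's with hA | hB
      · refine hA.trans ?_
        have h1 : ((lk k H v).filter (fun T => ∑ w ∈ T, y' w ≤ 1 - τ1)) ⊆
            (lk k H v).filter (fun T => ∑ w ∈ insert v T, y w ≤ 1 - τ) := by
          intro T hT
          rw [Finset.mem_filter] at hT ⊢
          refine ⟨hT.1, ?_⟩
          have hT1 := hT.1
          simp only [lk, Finset.mem_filter, Finset.mem_powersetCard] at hT1
          rw [Finset.sum_insert hT1.2.1]
          have e1 : ∑ w ∈ T, y w ≤ ∑ w ∈ T, (a + u * y' w) :=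
            Finset.sum_le_sum (fun w _ => hyy w)
          rw [Finset.sum_add_distrib, Finset.sum_const, nsmul_eq_mul, hT1.1.2,
            ← Finset.mul_sum] at e1
          have e2 : u * ∑ w ∈ T, y' w ≤ u * (1 - τ1) := mul_le_mul_of_nonneg_left hT.2 hu0.le
          have e3 : y v ≤ a := hLa v hv
          have e4 : (((k - 1 : ℕ) : ℕ) : ℝ) = (k : ℝ) - 1 := by
            rw [Nat.cast_sub (by omega)]
            simp
          rw [e4] at e1
          have e5 : ε / 2 * τ1 ≤ u * τ1 := mul_le_mul_of_nonneg_right hu1 hτ1.le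
          nlinarith
        have h2 := Finset.card_le_card h1
        rw [lk_card k (by omega) H hH v (fun e => ∑ w ∈ e, y w ≤ 1 - τ)] at h2
        have h3 : H.filter (fun e => v ∈ e ∧ ∑ w ∈ e, y w ≤ 1 - τ) =
            G.filter (fun e => v ∈ e) := by
          rw [hG, Finset.filter_filter]
          apply Finset.filter_congr
          intro e _
          exact and_comm
        rw [h3] at h2
        exact_mod_cast h2
      · exact absurd ⟨v, hv, hB⟩ hno
    have hdc : ∑ v ∈ Lw, ((G.filter (fun e => v ∈ e)).card : ℝ) ≤ k * (G.card : ℝ) := by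
      have h1 : ∑ v ∈ Lw, (G.filter (fun e => v ∈ e)).card =
          ∑ e ∈ G, (Lw.filter (fun v => v ∈ e)).card := by
        exact Finset.sum_card_bipartiteAbove_eq_sum_card_bipartiteBelow (fun v e => v ∈ e)
      have h2 : ∑ e ∈ G, (Lw.filter (fun v => v ∈ e)).card ≤ ∑ e ∈ G, k := by
        apply Finset.sum_le_sum
        intro e he
        have he2 : e.card = k := hH e (Finset.mem_filter.mp he).1
        rw [← he2]
        apply Finset.card_le_card
        intro w hw
        exact (Finset.mem_filter.mp hw).2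
      rw [Finset.sum_const, smul_eq_mul] at h2
      have h3 : ∑ v ∈ Lw, (G.filter (fun e => v ∈ e)).card ≤ k * G.card := by
        rw [h1, mul_comm]
        exact h2
      exact_mod_cast h3
    have hlb : (m : ℝ) * (c1 * N ^ (k - 1)) ≤ ∑ v ∈ Lw, ((G.filter (fun e => v ∈ e)).card : ℝ) := by
      rw [← hLc, ← nsmul_eq_mul]
      exact Finset.card_nsmul_le_sum _ _ _ hall
    have hc : min (ε / 4 * c1 / k) g * N ^ k ≤ (ε / 4 * c1 / k) * N ^ k :=
      mul_le_mul_of_nonneg_right (min_le_left _ _) (by positivity)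
    have hPpos : 0 < c1 * N ^ (k - 1) := by positivity
    have h5 : ε / 4 * N * (c1 * N ^ (k - 1)) ≤ k * (G.card : ℝ) :=
      (mul_le_mul_of_nonneg_right hm1 hPpos.le).trans (hlb.trans hdc)
    have h6 : (ε / 4 * c1 / k) * N ^ k * k = ε / 4 * N * (c1 * N ^ (k - 1)) := by
      rw [hNpow]
      field_simp
    have h7 : (G.card : ℝ) < (ε / 4 * c1 / k) * N ^ k := lt_of_lt_of_le hcon hc
    have h8 : (G.card : ℝ) * k < (ε / 4 * c1 / k) * N ^ k * k :=
      mul_lt_mul_of_pos_right h7 hk0
    rw [h6] at h8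
    linarith
  obtain ⟨v, hv, S, hS1, hS2⟩ := hex
  apply hext
  refine ⟨S, ?_, ?_⟩
  · refine hS1.trans ?_
    apply mul_le_mul_of_nonneg_right _ (by linarith)
    linarith
  · set X : Finset V := univ.filter (fun w => w ∉ S ∧ g < y' w) with hX
    have hXc : (X.card : ℝ) ≤ g * N := by
      have : ({w : V | w ∉ S ∧ g < y' w} : Set V) = (X : Set V) := by
        ext w
        simp [hX]
      rw [this, Set.ncard_coe_finset] at hS2
      exact hS2
    have hsub : H.filter (fun e => Disjoint e S) ⊆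
        G ∪ X.biUnion (fun w => H.filter (fun e => w ∈ e)) := by
      intro e he
      rw [Finset.mem_filter] at he
      rw [Finset.mem_union]
      by_cases hx : ∃ w ∈ X, w ∈ e
      · right
        obtain ⟨w, hw, hwe⟩ := hx
        rw [Finset.mem_biUnion]
        exact ⟨w, hw, Finset.mem_filter.mpr ⟨he.1, hwe⟩⟩
      · left
        rw [hG, Finset.mem_filter]
        refine ⟨he.1, ?_⟩
        have e1 : ∑ w ∈ e, y w ≤ ∑ w ∈ e, (a + u * g) := by
          apply Finset.sum_le_sum
          intro w hw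
          have hwS : w ∉ S := fun hh => (Finset.disjoint_left.mp he.2 hw) hh
          have hwg : y' w ≤ g := by
            by_contra hlt
            rw [not_le] at hlt
            exact hx ⟨w, by rw [hX, Finset.mem_filter]; exact ⟨Finset.mem_univ _, hwS, hlt⟩, hw⟩
          have := mul_le_mul_of_nonneg_left hwg hu0.le
          linarith [hyy w]
        rw [Finset.sum_const, nsmul_eq_mul, hH e he.1] at e1
        have e2 : u * (k * g) ≤ u * (1 / 2) := mul_le_mul_of_nonneg_left hg2 hu0.le
        nlinarith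
    have h1 : ((H.filter (fun e => Disjoint e S)).card : ℝ) ≤
        (G.card : ℝ) + ∑ w ∈ X, (dg H w : ℝ) := by
      have := (Finset.card_le_card hsub).trans (Finset.card_union_le _ _)
      have h2 : (X.biUnion (fun w => H.filter (fun e => w ∈ e))).card ≤ ∑ w ∈ X, dg H w :=
        Finset.card_biUnion_le
      have h3 := this.trans (Nat.add_le_add_left h2 _)
      exact_mod_cast h3
    have h2 : ∑ w ∈ X, (dg H w : ℝ) ≤ X.card * N ^ (k - 1) := by
      rw [← nsmul_eq_mul]
      exact Finset.sum_le_card_nsmul _ _ _ (fun w _ => dg_le k (by omega) H hH w)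
    have h3 : (X.card : ℝ) * N ^ (k - 1) ≤ g * N * N ^ (k - 1) :=
      mul_le_mul_of_nonneg_right hXc (by positivity)
    have h4 : g * N * N ^ (k - 1) = g * N ^ k := by rw [hNpow]; ring
    have h5 : min (ε / 4 * c1 / k) g * N ^ k ≤ g * N ^ k :=
      mul_le_mul_of_nonneg_right (min_le_right _ _) (by positivity)
    have h6 : (G.card : ℝ) ≤ g * N ^ k := hcon.le.trans h5
    have h7 : 2 * g * N ^ k ≤ γ * N ^ k :=
      mul_le_mul_of_nonneg_right (by linarith) (by positivity)
    linarith

end Pool.Agent.W398.SAM
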